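import Pool.Agent.Lib.H14I.MinRank

set_option autoImplicit false

namespace Pool.Agent.Results.MP_5893b4_co.MinRankTriangular

open H14I.MinRank

universe u v w

/-- For every field `F`, all finite sets `X` (rows) and `Y` (columns) and every partial matrix `A` over
`F` whose associated graph is bipartite chordal, the triangular minimal rank of `A` equals the minimal
rank of `A`; in particular some maximal triangular subpattern `T` of the pattern of `A` satisfies
`mr(A|T) = mr(A)`. -/
theorem result (X : Type u) (Y : Type v) (F : Type w) [Fintype X] [Fintype Y] [Field F]
    (A : PartialMatrix X Y F) (hA : BipartiteChordal (associatedGraph A.known)) :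
    triangularMinRank A = minRank A ∧
      ∃ (T : Set (X × Y)) (hT : IsMaximalTriangular A.known T),
        minRank (A.restrict T hT.1) = minRank A :=
  ⟨triangularMinRank_eq A hA, exists_maximal_triangular A hA⟩

end Pool.Agent.Results.MP_5893b4_co.MinRankTriangular
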